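import Pool.Agent.H41.ET.Defs

set_option autoImplicit false

/-!
# ET-GLOB: from the local problem to graphs
-/

namespace Pool.Agent.H546.ET

open Pool.Agent.H41.ET

theorem even_of_inv {H : Type} [Finite H] (s : Set H) (N : H → H) (h1 : ∀ x ∈ s, N x ∈ s)
    (h2 : ∀ x ∈ s, N (N x) = x) (h3 : ∀ x ∈ s, N x ≠ x) : Even s.ncard := by
  classical
  have hf : s.Finite := Set.toFinite s
  rw [Set.ncard_eq_toFinset_card s hf]
  have h : ∑ _x ∈ hf.toFinset, (1 : ZMod 2) = 0 := by
    refine Finset.sum_involution (fun a _ => N a) (fun a _ => by decide) ?_ ?_ ?_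
    · intro a ha _
      exact h3 a (hf.mem_toFinset.1 ha)
    · intro a ha
      exact hf.mem_toFinset.2 (h1 a (hf.mem_toFinset.1 ha))
    · intro a ha
      exact h2 a (hf.mem_toFinset.1 ha)
  rw [Finset.sum_const, nsmul_eq_mul, mul_one] at h
  exact (ZMod.natCast_eq_zero_iff_even).1 h

theorem exists_inv {X : Type} [Finite X] (h : Even (Nat.card X)) : ∃ N : X → X, Inv0 N := by
  classical
  cases nonempty_fintype X
  obtain ⟨k, hk⟩ := h
  have hc : Fintype.card X = Fintype.card (Fin k × Bool) := by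
    rw [← Nat.card_eq_fintype_card, hk, Fintype.card_prod, Fintype.card_fin, Fintype.card_bool]
    ring
  have e := Fintype.equivOfCardEq hc
  refine ⟨fun x => e.symm ((e x).1, !(e x).2), fun x => ?_, fun x hx => ?_⟩
  · simp
  · have h1 := congrArg e hx
    rw [Equiv.apply_symm_apply] at h1
    have h2 := congrArg Prod.snd h1
    simp at h2

theorem pairing {X Y : Type} [Finite X] (f : X → Y) (h : ∀ y, Even {x | f x = y}.ncard) :
    ∃ N : X → X, Inv0 N ∧ ∀ x, f (N x) = f x := by
  have h1 : ∀ y, ∃ N : {x // f x = y} → {x // f x = y}, Inv0 N := by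
    intro y
    apply exists_inv
    exact h y
  choose N hN using h1
  have key : ∀ (y : Y) (x : {x // f x = y}), (N (f x.1) ⟨x.1, rfl⟩).1 = (N y x).1 := by
    rintro y ⟨x, rfl⟩
    rfl
  refine ⟨fun x => (N (f x) ⟨x, rfl⟩).1, ⟨fun x => ?_, fun x hx => ?_⟩, fun x => ?_⟩
  · have h2 := key (f x) (N (f x) ⟨x, rfl⟩)
    simp only at h2 ⊢
    rw [h2, (hN (f x)).1]
  · exact (hN (f x)).2 ⟨x, rfl⟩ (Subtype.ext hx)
  · exact (N (f x) ⟨x, rfl⟩).2

theorem orb_symm {H : Type} {N O : H → H} (hN : ∀ x, N (N x) = x) (hO : ∀ x, O (O x) = x)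
    {x y : H} (h : y ∈ orb N O x) : x ∈ orb N O y := by
  intro A hA hy
  by_contra hx
  have h1 : y ∈ Aᶜ := by
    refine h Aᶜ ⟨fun z hz hz' => ?_, fun z hz hz' => ?_⟩ hx
    · have := hA.1 _ hz'
      rw [hN] at this
      exact hz this
    · have := hA.2 _ hz'
      rw [hO] at this
      exact hz this
  exact h1 hy

/-- the orbits as a setoid -/
def orbS {H : Type} (N O : H → H) (hN : ∀ x, N (N x) = x) (hO : ∀ x, O (O x) = x) : Setoid H where
  r x y := y ∈ orb N O x
  iseqv :=
    { refl := fun _ _ _ h => h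
      symm := fun h => orb_symm hN hO h
      trans := fun h1 h2 A hA hx => h2 A hA (h1 A hA hx) }

theorem orb_fst {H : Type} (N O : H → H) (x : H) : N x ∈ orb N O x := fun _ hA hx => hA.1 x hx

theorem orb_snd {H : Type} (N O : H → H) (x : H) : O x ∈ orb N O x := fun _ hA hx => hA.2 x hx

/-- the matching of the half edges at `v` -/
theorem exists_O {H V : Type} [Finite H] (α τ : H → H) (b : H → V) (hα : Inv0 α)
    (hτ : Inv0 τ) (hb : ∀ h, b (τ h) = b h) (v : V) :
    ∃ O : {h // b h = v} → {h // b h = v}, Inv0 O ∧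
      ∀ A : Set H, (∀ h ∈ A, α h ∈ A) → (∀ h ∈ A, b h ≠ v → τ h ∈ A) →
        ∀ x : {h // b h = v}, x.1 ∈ A → (O x).1 ∈ A := by
  classical
  set σ : H → H := fun h => if b h = v then h else τ h with hσ
  have hσσ : ∀ x, σ (σ x) = x := by
    intro x
    simp only [hσ]
    by_cases hx : b x = v
    · rw [if_pos hx, if_pos hx]
    · rw [if_neg hx]
      have h1 : b (τ x) ≠ v := by rw [hb]; exact hx
      rw [if_neg h1, hτ.1]
  let s := orbS α σ hα.1 hσσ
  have hev : ∀ q : Quotient s, Even {x : {h // b h = v} | (⟦x.1⟧ : Quotient s) = q}.ncard := by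
    intro q
    induction q using Quotient.ind with
    | _ w =>
      set W : Set H := {y | w ∈ orb α σ y} with hW
      have hW1 : Even W.ncard := by
        refine even_of_inv W α (fun x hx => ?_) (fun x _ => hα.1 x) (fun x _ => hα.2 x)
        intro A hA h1
        refine hx A hA ?_
        have := hA.1 _ h1
        rwa [hα.1] at this
      have hW2 : Even (W \ {h | b h = v}).ncard := by
        refine even_of_inv _ τ (fun x hx => ⟨?_, ?_⟩) (fun x _ => hτ.1 x) (fun x _ => hτ.2 x)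
        · have hxv : b x ≠ v := hx.2
          intro A hA h1
          refine hx.1 A hA ?_
          have h2 := hA.2 _ h1
          have h3 : σ (τ x) = x := by
            have h4 : b (τ x) ≠ v := by rw [hb]; exact hxv
            simp only [hσ]
            rw [if_neg h4, hτ.1]
          rwa [h3] at h2
        · have hxv : b x ≠ v := hx.2
          change ¬ b (τ x) = v
          rw [hb]; exact hxv
      have hadd := Set.ncard_inter_add_ncard_sdiff_eq_ncard W {h | b h = v} (Set.toFinite _)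
      have himg : Subtype.val '' {x : {h // b h = v} | (⟦x.1⟧ : Quotient s) = ⟦w⟧} =
          W ∩ {h | b h = v} := by
        ext h
        constructor
        · rintro ⟨x, hx, rfl⟩
          have hx' : (⟦x.1⟧ : Quotient s) = ⟦w⟧ := hx
          exact ⟨Quotient.exact hx', x.2⟩
        · rintro ⟨h1, h2⟩
          exact ⟨⟨h, h2⟩, Quotient.sound (s := s) h1, rfl⟩
      rw [← Set.ncard_image_of_injective _ Subtype.val_injective, himg]
      rw [← hadd] at hW1
      exact (Nat.even_add.1 hW1).2 hW2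
  obtain ⟨O, hO, hO2⟩ := pairing (fun x : {h // b h = v} => (⟦x.1⟧ : Quotient s)) hev
  refine ⟨O, hO, fun A hA1 hA2 x hx => ?_⟩
  have h1 : (O x).1 ∈ orb α σ x.1 := by
    have h2 : (⟦(O x).1⟧ : Quotient s) = ⟦x.1⟧ := hO2 x
    exact Quotient.exact h2.symm
  refine h1 A ⟨hA1, fun y hy => ?_⟩ hx
  simp only [hσ]
  by_cases hyv : b y = v
  · rw [if_pos hyv]; exact hy
  · rw [if_neg hyv]; exact hA2 y hy hyv

/-- the invariant -/
def IV {H V : Type} {c : ℕ} (α : H → H) (b : H → V) (P : Finset V) (τ : Fin c → H → H) : Prop :=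
  (∀ j, Inv0 (τ j)) ∧ (∀ j h, b (τ j h) = b h) ∧
  (∀ i j, i ≠ j → ∀ h, b h ∈ P → τ i h ≠ τ j h) ∧
  ∀ j, ∀ v ∈ P, ∀ A : Set H, Cl α (τ j) A → (∃ h ∈ A, b h = v) → ∀ h, b h = v → h ∈ A

theorem step {H V : Type} [Finite H] [DecidableEq V] {c d' : ℕ} (α : H → H) (b : H → V)
    (hα : Inv0 α) (P : Finset V) (τ : Fin c → H → H) (hI : IV α b P τ) (v : V) (hv : v ∉ P)
    (hc : {h | b h = v}.ncard = 2 * d') (hL : Loc d' c) :
    ∃ τ' : Fin c → H → H, IV α b (insert v P) τ' := by
  classical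
  cases nonempty_fintype H
  obtain ⟨h1, h2, h3, h4⟩ := hI
  have hO := fun j => exists_O α (τ j) b hα (h1 j) (h2 j) v
  choose O hO1 hO2 using hO
  have hcard : Fintype.card {h // b h = v} = 2 * d' := by
    rw [← hc, ← Nat.card_eq_fintype_card]
    rfl
  obtain ⟨N, hN1, hN2, hN3⟩ := hL {h // b h = v} hcard O hO1
  set τ' : Fin c → H → H := fun j h => if hb : b h = v then (N j ⟨h, hb⟩).1 else τ j h with hτ'
  have e1 : ∀ j (x : {h // b h = v}), τ' j x.1 = (N j x).1 := by
    intro j x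
    simp only [hτ']
    rw [dif_pos x.2]
  have e2 : ∀ j h, b h ≠ v → τ' j h = τ j h := by
    intro j h hh
    simp only [hτ']
    rw [dif_neg hh]
  have hbb : ∀ j h, b (τ' j h) = b h := by
    intro j h
    by_cases hh : b h = v
    · have := e1 j ⟨h, hh⟩
      simp only at this
      rw [this, hh]
      exact (N j ⟨h, hh⟩).2
    · rw [e2 j h hh, h2]
  have hfull : ∀ j (A : Set H), Cl α (τ' j) A → (∃ h ∈ A, b h = v) → ∀ h, b h = v → h ∈ A := by
    rintro j A hA ⟨h₀, hh₀, hb₀⟩ h hh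
    have h5 : {x : {h // b h = v} | x.1 ∈ A} = Set.univ := by
      refine hN3 j _ ⟨⟨h₀, hb₀⟩, hh₀⟩ ⟨fun x hx => ?_, fun x hx => ?_⟩
      · change (N j x).1 ∈ A
        rw [← e1]
        exact hA.2 _ hx
      · refine hO2 j A hA.1 (fun y hy hyv => ?_) x hx
        rw [← e2 j y hyv]
        exact hA.2 _ hy
    have h6 : (⟨h, hh⟩ : {h // b h = v}) ∈ {x : {h // b h = v} | x.1 ∈ A} := by
      rw [h5]; exact Set.mem_univ _
    exact h6
  refine ⟨τ', fun j => ⟨fun h => ?_, fun h hh => ?_⟩, hbb, ?_, ?_⟩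
  · by_cases hh : b h = v
    · have h5 := e1 j ⟨h, hh⟩
      simp only at h5
      rw [h5, e1, (hN1 j).1]
    · rw [e2 j h hh, e2 j _ (by rw [h2]; exact hh), (h1 j).1]
  · by_cases hb : b h = v
    · have h5 := e1 j ⟨h, hb⟩
      simp only at h5
      rw [h5] at hh
      exact (hN1 j).2 ⟨h, hb⟩ (Subtype.ext hh)
    · rw [e2 j h hb] at hh
      exact (h1 j).2 h hh
  · intro i j hij h hh heq
    rw [Finset.mem_insert] at hh
    by_cases hb : b h = v
    · have h5 := e1 i ⟨h, hb⟩
      have h6 := e1 j ⟨h, hb⟩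
      simp only at h5 h6
      rw [h5, h6] at heq
      exact hN2 i j hij _ (Subtype.ext heq)
    · rw [e2 i h hb, e2 j h hb] at heq
      exact h3 i j hij h (hh.resolve_left hb) heq
  · intro j v' hv' A hA hne h hh
    rw [Finset.mem_insert] at hv'
    rcases hv' with rfl | hv'
    · exact hfull j A hA hne h hh
    · refine h4 j v' hv' A ⟨hA.1, fun x hx => ?_⟩ hne h hh
      by_cases hb : b x = v
      · refine hfull j A hA ⟨x, hx, hb⟩ _ ?_
        rw [h2, hb]
      · rw [← e2 j x hb]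
        exact hA.2 x hx

theorem glob : S_GLOB := by
  intro d c hL H V _ _ _ _ α b hα hconn hev hge
  classical
  have hall : ∀ P : Finset V, ∃ τ : Fin c → H → H, IV α b P τ := by
    intro P
    induction P using Finset.induction_on with
    | empty =>
      obtain ⟨N, hN, hN2⟩ := pairing b hev
      refine ⟨fun _ => N, fun _ => hN, fun _ => hN2, ?_, ?_⟩
      · intro i j _ h hh
        exact absurd hh (Finset.notMem_empty _)
      · intro j v hv
        exact absurd hv (Finset.notMem_empty _)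
    | insert v P hv ih =>
      obtain ⟨τ, hτ⟩ := ih
      obtain ⟨d', hd'⟩ := hev v
      have h1 := hge v
      exact step (d' := d') α b hα P τ hτ v hv (by omega) (hL d' (by omega))
  obtain ⟨τ, h1, h2, h3, h4⟩ := hall Finset.univ
  refine ⟨τ, h1, h2, fun i j hij h => h3 i j hij h (Finset.mem_univ _), fun j A hA hcl => ?_⟩
  obtain ⟨h₀, hh₀⟩ := hA
  have h5 : {v | ∃ h ∈ A, b h = v} = Set.univ := by
    refine hconn _ ⟨b h₀, h₀, hh₀, rfl⟩ ?_
    rintro h ⟨h', hh', he⟩
    have h6 : h ∈ A := h4 j (b h) (Finset.mem_univ _) A hcl ⟨h', hh', he⟩ h rfl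
    exact ⟨α h, hcl.1 h h6, rfl⟩
  ext h
  refine ⟨fun _ => trivial, fun _ => ?_⟩
  have h6 : b h ∈ {v | ∃ h ∈ A, b h = v} := by rw [h5]; exact Set.mem_univ _
  exact h4 j (b h) (Finset.mem_univ _) A hcl h6 h rfl

end Pool.Agent.H546.ET
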